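import Pool.Agent.H66.TM.Lin

/-!
# Integral matrices with nonzero determinant on the torus
-/

set_option autoImplicit false
set_option linter.unusedSectionVars false

open Set Filter Topology Function

namespace Pool.Agent.H66.ST

open Pool.Agent.H66.TM

variable {k : ℕ}

theorem lin_smul (D : ℤ) (y : Tor k) : lin (D • (1 : Matrix (Fin k) (Fin k) ℤ)) y = D • y := by
  funext i
  show ∑ j, (D • (1 : Matrix (Fin k) (Fin k) ℤ)) i j • y j = D • y i
  simp [Matrix.one_apply, Finset.sum_ite_eq]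

theorem zsmul_surj {D : ℤ} (hD : D ≠ 0) (y : Tor k) : ∃ x : Tor k, D • x = y := by
  obtain ⟨v, rfl⟩ := mk_surj k y
  refine ⟨mk (((D : ℝ)⁻¹) • v), ?_⟩
  funext i
  show D • (((((D : ℝ)⁻¹) • v) i : ℝ) : AddCircle (1 : ℝ)) = ((v i : ℝ) : AddCircle (1 : ℝ))
  have h1 : ((D : ℝ)⁻¹ • v) i = (D : ℝ)⁻¹ * v i := rfl
  rw [h1, ← AddCircle.coe_zsmul, zsmul_eq_mul, ← mul_assoc, mul_inv_cancel₀ (by exact_mod_cast hD),
    one_mul]

theorem lin_surj {P : Matrix (Fin k) (Fin k) ℤ} (h : P.det ≠ 0) (y : Tor k) :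
    ∃ x, lin P x = y := by
  obtain ⟨z, hz⟩ := zsmul_surj h y
  refine ⟨lin P.adjugate z, ?_⟩
  rw [← lin_mul, Matrix.mul_adjugate, lin_smul, hz]

theorem ker_finite {P : Matrix (Fin k) (Fin k) ℤ} (h : P.det ≠ 0) :
    {y : Tor k | lin P y = 0}.Finite := by
  have h1 : {u : AddCircle (1 : ℝ) | P.det.natAbs • u = 0}.Finite :=
    AddCircle.finite_torsion (p := (1 : ℝ)) (Int.natAbs_pos.mpr h)
  have h2 : (Set.univ.pi fun _ : Fin k => {u : AddCircle (1 : ℝ) | P.det.natAbs • u = 0}).Finite :=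
    Set.Finite.pi fun _ => h1
  refine h2.subset ?_
  intro y hy i _
  show P.det.natAbs • y i = 0
  have h3 : lin (P.adjugate * P) y = 0 := by
    rw [lin_mul, show lin P y = 0 from hy, lin_zero]
  rw [Matrix.adjugate_mul, lin_smul] at h3
  have h4 : P.det • y i = 0 := congrFun h3 i
  rcases Int.natAbs_eq P.det with h5 | h5
  · rw [h5, natCast_zsmul] at h4
    exact h4
  · rw [h5, neg_zsmul, natCast_zsmul, neg_eq_zero] at h4
    exact h4

/-- the fibres of an integral matrix -/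
theorem fib_ncard {P : Matrix (Fin k) (Fin k) ℤ} (h : P.det ≠ 0) (c : Tor k) :
    {y : Tor k | lin P y = c}.Finite ∧
      {y : Tor k | lin P y = c}.ncard = {y : Tor k | lin P y = 0}.ncard := by
  obtain ⟨x, hx⟩ := lin_surj h c
  have h1 : {y : Tor k | lin P y = c} = (fun y => y + x) '' {y : Tor k | lin P y = 0} := by
    ext y
    constructor
    · intro hy
      refine ⟨y - x, ?_, sub_add_cancel y x⟩
      show lin P (y - x) = 0
      rw [lin_sub, show lin P y = c from hy, hx, sub_self]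
    · rintro ⟨z, hz, rfl⟩
      show lin P (z + x) = c
      rw [lin_add, show lin P z = 0 from hz, hx, zero_add]
  rw [h1]
  exact ⟨(ker_finite h).image _, Set.ncard_image_of_injective _ fun a b hab => add_right_cancel hab⟩

theorem ker_pos {P : Matrix (Fin k) (Fin k) ℤ} (h : P.det ≠ 0) :
    0 < {y : Tor k | lin P y = 0}.ncard :=
  (Set.ncard_pos (ker_finite h)).mpr ⟨0, lin_zero P⟩

/-- iterates of affine extensions -/
theorem iter_aff {N B : Type*} {Θ : B × Tor k → N} {F : N → N} {f : B → B} {c : B → Tor k}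
    {A : Matrix (Fin k) (Fin k) ℤ} (h : ∀ b y, F (Θ (b, y)) = Θ (f b, lin A y + c b)) (m : ℕ) :
    ∃ e : B → Tor k, ∀ b y, F^[m] (Θ (b, y)) = Θ (f^[m] b, lin (A ^ m) y + e b) := by
  induction m with
  | zero => exact ⟨fun _ => 0, fun b y => by simp [lin_one]⟩
  | succ m ih =>
    obtain ⟨e, he⟩ := ih
    refine ⟨fun b => lin A (e b) + c (f^[m] b), fun b y => ?_⟩
    rw [iterate_succ_apply', he, h, iterate_succ_apply', lin_add, pow_succ', lin_mul, add_assoc]

theorem lin_sub_one (P : Matrix (Fin k) (Fin k) ℤ) (y : Tor k) :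
    lin P y = lin (P - 1) y + y := by
  have h1 := lin_addm (P - 1) 1 y
  rw [sub_add_cancel, lin_one] at h1
  exact h1

/-- counting fixed points of the iterates of affine extensions -/
theorem count {N B : Type*} {Θ : B × Tor k → N} (hΘ : Bijective Θ) {F : N → N} {f : B → B}
    {c : B → Tor k} {A : Matrix (Fin k) (Fin k) ℤ}
    (h : ∀ b y, F (Θ (b, y)) = Θ (f b, lin A y + c b)) {m : ℕ} (hm : (A ^ m - 1).det ≠ 0)
    (hfin : {b | f^[m] b = b}.Finite) :
    {x | F^[m] x = x}.ncard = {b | f^[m] b = b}.ncard * {y : Tor k | lin (A ^ m - 1) y = 0}.ncard := by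
  obtain ⟨e, he⟩ := iter_aff h m
  choose s hs using fun b => lin_surj hm (-(e b))
  have hfix : ∀ b y, F^[m] (Θ (b, y)) = Θ (b, y) ↔ f^[m] b = b ∧ lin (A ^ m - 1) y = -(e b) := by
    intro b y
    rw [he]
    constructor
    · intro h1
      have h2 := hΘ.1 h1
      have h3 : lin (A ^ m) y + e b = y := congrArg Prod.snd h2
      refine ⟨congrArg Prod.fst h2, ?_⟩
      rw [lin_sub_one (A ^ m) y] at h3
      have h5 : lin (A ^ m - 1) y + e b + y = 0 + y := by
        rw [zero_add, add_right_comm]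
        exact h3
      exact eq_neg_of_add_eq_zero_left (add_right_cancel h5)
    · rintro ⟨h1, h2⟩
      rw [lin_sub_one (A ^ m) y, h2, h1]
      congr 2
      abel
  have h1 : {x | F^[m] x = x} = (fun z : B × Tor k => Θ (z.1, s z.1 + z.2)) ''
      ({b | f^[m] b = b} ×ˢ {y : Tor k | lin (A ^ m - 1) y = 0}) := by
    ext x
    constructor
    · intro hx
      obtain ⟨⟨b, y⟩, rfl⟩ := hΘ.2 x
      obtain ⟨h2, h3⟩ := (hfix b y).1 hx
      refine ⟨(b, y - s b), ⟨h2, ?_⟩, ?_⟩
      · show lin (A ^ m - 1) (y - s b) = 0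
        rw [lin_sub, h3, hs, sub_self]
      · show Θ (b, s b + (y - s b)) = Θ (b, y)
        rw [add_sub_cancel]
    · rintro ⟨⟨b, y⟩, ⟨h2, h3⟩, rfl⟩
      refine (hfix b (s b + y)).2 ⟨h2, ?_⟩
      rw [lin_add, hs, show lin (A ^ m - 1) y = 0 from h3, add_zero]
  have hinj : Injective (fun z : B × Tor k => Θ (z.1, s z.1 + z.2)) := by
    intro z z' hzz
    have h2 : (z.1, s z.1 + z.2) = (z'.1, s z'.1 + z'.2) := hΘ.1 hzz
    have h3 : z.1 = z'.1 := (Prod.ext_iff.1 h2).1
    have h4 : s z.1 + z.2 = s z'.1 + z'.2 := (Prod.ext_iff.1 h2).2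
    rw [h3] at h4
    exact Prod.ext h3 (add_left_cancel h4)
  rw [h1, Set.ncard_image_of_injective _ hinj, Set.ncard_prod]

/-- periodic points over periodic points -/
theorem exists_per {N B : Type*} {Θ : B × Tor k → N} {F : N → N} {f : B → B}
    {c : B → Tor k} {A : Matrix (Fin k) (Fin k) ℤ}
    (h : ∀ b y, F (Θ (b, y)) = Θ (f b, lin A y + c b)) {m : ℕ} (hm : (A ^ m - 1).det ≠ 0)
    {b : B} (hb : f^[m] b = b) : ∃ y, F^[m] (Θ (b, y)) = Θ (b, y) := by
  obtain ⟨e, he⟩ := iter_aff h m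
  obtain ⟨y, hy⟩ := lin_surj hm (-(e b))
  refine ⟨y, ?_⟩
  rw [he, hb]
  rw [lin_sub_one (A ^ m) y, hy]
  congr 2
  abel

/-- finitely many periodic points from bounded numbers of fixed points of the iterates -/
theorem per_finite {B : Type*} {f : B → B} {q : ℕ} (hf : ∀ m, 1 ≤ m → {b | f^[m] b = b}.Finite)
    (h : ∀ m, 1 ≤ m → {b | f^[m] b = b}.ncard ≤ q) : (periodicPts f).Finite := by
  by_contra hcon
  obtain ⟨S, hS, hcard⟩ := Set.Infinite.exists_subset_card_eq hcon (q + 1)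
  choose! p hp hp' using fun (b : B) (hb : b ∈ periodicPts f) => hb
  set M := ∏ b ∈ S, p b with hM
  have hM0 : 1 ≤ M := Finset.prod_pos fun b hb => hp b (hS hb)
  have h1 : (S : Set B) ⊆ {b | f^[M] b = b} := by
    intro b hb
    obtain ⟨l, hl⟩ := Finset.dvd_prod_of_mem p (show b ∈ S from hb)
    have := (hp' b (hS hb)).mul_const l
    show f^[M] b = b
    rw [hM, hl]
    exact this
  have h2 := Set.ncard_le_ncard h1 (hf M hM0)
  rw [Set.ncard_coe_finset, hcard] at h2
  have := h M hM0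
  omega

end Pool.Agent.H66.ST
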