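import Pool.Agent.H66.GL.Aff
import Pool.Agent.H66.ST.Tal
import Pool.Agent.H66.L.T64922ed1.X183.AT.Unip
import Pool.Agent.H66.L.T64922ed1.X183.AT.Hyp
import Pool.Agent.H66.L.S8.R775.HL.Lin

/-!
# The fibres of affine torus extensions are affine tori
-/

set_option autoImplicit false
set_option linter.unusedSectionVars false

open scoped Topology ContDiff Manifold
open Set Filter Function

universe u v

namespace Pool.Agent.H66.ST

open Pool.Agent.H718R2.G Pool.Agent.H66.TM Pool.Agent.X183.AT Pool.Agent.TH80.OMS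
open Pool.Agent.R773.TE (ProdDiff proj)
open Pool.Agent.X183.QP (mv)
open Pool.Agent.TH290.CL (IsFlow)
open Pool.Agent.R775.HL (HypLin hypLin_of_inter root_norm)

variable {n d k : ℕ} {N : Type u} [TopologicalSpace N] [T2Space N] [CompactSpace N]
  [ChartedSpace (V n) N] [IsManifold (𝓡 n) ∞ N]
  {B : Type v} [TopologicalSpace B] [T2Space B] [CompactSpace B] [ChartedSpace (V d) B]
  [IsManifold (𝓡 d) ∞ B] {r : ℕ∞}

/-- the basis -/
noncomputable def eb (k i : ℕ) : EuclideanSpace ℝ (Fin k) :=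
  if h : i < k then EuclideanSpace.single ⟨i, h⟩ 1 else 0

/-- the translations along the fibres -/
noncomputable def fl (Θ : ProdDiff n d k N B (Tor k)) (i : ℕ) (t : ℝ) (x : N) : N :=
  Θ ((Θ.symm x).1, mk (t • eb k i) + (Θ.symm x).2)

theorem fl_apply (Θ : ProdDiff n d k N B (Tor k)) (i : ℕ) (t : ℝ) (b : B) (y : Tor k) :
    fl Θ i t (Θ (b, y)) = Θ (b, mk (t • eb k i) + y) := by
  unfold fl
  rw [Θ.symm_apply_apply]

theorem fl_flow (Θ : ProdDiff n d k N B (Tor k)) (i : ℕ) : IsFlow n N (fl Θ i) where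
  smooth := by
    have h1 : ContMDiff (𝓘(ℝ, ℝ).prod (𝓡 n)) ((𝓡 d).prod (𝓡 k)) ∞
        (fun p : ℝ × N => Θ.symm p.2) := Θ.symm.contMDiff.comp contMDiff_snd
    have h2 : ContMDiff (𝓘(ℝ, ℝ).prod (𝓡 n)) (𝓡 d) ∞
        (fun p : ℝ × N => (Θ.symm p.2).1) := contMDiff_fst.comp h1
    have h3 : ContMDiff (𝓘(ℝ, ℝ).prod (𝓡 n)) (𝓡 k) ∞
        (fun p : ℝ × N => (Θ.symm p.2).2) := contMDiff_snd.comp h1
    have h4 : ContMDiff (𝓘(ℝ, ℝ).prod (𝓡 n)) (𝓡 k) ∞ (fun p : ℝ × N => p.1 • eb k i) := by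
      have h5 : ContDiff ℝ ∞ (fun t : ℝ => t • eb k i) := contDiff_id.smul contDiff_const
      exact h5.contMDiff.comp contMDiff_fst
    exact Θ.contMDiff.comp (h2.prodMk ((add_mk_smooth k).comp (h4.prodMk h3)))
  zero y := by
    unfold fl
    rw [zero_smul, mk_zero, zero_add]
    exact Θ.apply_symm_apply y
  add s t y := by
    unfold fl
    rw [Θ.symm_apply_apply, add_smul, mk_add, add_assoc]

theorem mv_apply (Θ : ProdDiff n d k N B (Tor k)) (w : ℕ → ℝ) (j : ℕ) (b : B) (y : Tor k) :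
    mv (fl Θ) w j (Θ (b, y)) = Θ (b, mk (∑ i ∈ Finset.range j, w i • eb k i) + y) := by
  induction j with
  | zero =>
    show Θ (b, y) = _
    rw [Finset.range_zero, Finset.sum_empty, mk_zero, zero_add]
  | succ j ih =>
    show fl Θ j (w j) (mv (fl Θ) w j (Θ (b, y))) = _
    rw [ih, fl_apply, Finset.sum_range_succ, mk_add, ← add_assoc, add_comm (mk (w j • eb k j))]

theorem ex_sum (w : W k) : ∑ i ∈ Finset.range k, ex w i • eb k i = WithLp.toLp 2 w := by
  have h1 : ∑ i ∈ Finset.range k, ex w i • eb k i = ∑ i : Fin k, ex w i • eb k i :=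
    (Fin.sum_univ_eq_sum_range (fun i => ex w i • eb k i) k).symm
  rw [h1]
  ext j
  rw [WithLp.ofLp_sum, Finset.sum_apply]
  rw [Finset.sum_eq_single j]
  · show ex w j * (eb k j) j = w j
    unfold ex eb
    rw [dif_pos j.2, dif_pos j.2]
    simp
  · intro i _ hij
    show ex w i * (eb k i) j = 0
    unfold eb
    rw [dif_pos i.2]
    simp [EuclideanSpace.single, Ne.symm hij]
  · intro h
    exact absurd (Finset.mem_univ j) h

theorem act_apply (Θ : ProdDiff n d k N B (Tor k)) (w : W k) (b : B) (y : Tor k) :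
    act (fl Θ) w (Θ (b, y)) = Θ (b, mk (WithLp.toLp 2 w) + y) := by
  show mv (fl Θ) (ex w) k (Θ (b, y)) = _
  rw [mv_apply, ex_sum]

/-- the linear map -/
noncomputable def LW (P : Matrix (Fin k) (Fin k) ℤ) : W k →ₗ[ℝ] W k :=
  Matrix.toLin' (P.map (Int.cast : ℤ → ℝ))

theorem LW_apply (P : Matrix (Fin k) (Fin k) ℤ) (w : W k) :
    linV P (WithLp.toLp 2 w) = WithLp.toLp 2 (LW P w) := by
  ext i
  rw [linV_apply]
  show ∑ j, (P i j : ℝ) * w j = LW P w i
  unfold LW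
  rw [Matrix.toLin'_apply]
  rfl

theorem LW_pow (P : Matrix (Fin k) (Fin k) ℤ) (m : ℕ) : LW (P ^ m) = LW P ^ m := by
  unfold LW
  rw [← Matrix.toLin'_pow]
  congr 1
  exact map_pow (Int.castRingHom ℝ).mapMatrix P m

variable {Θ : ProdDiff n d k N B (Tor k)} {F : DiffM n N r} {f : DiffM d B r}
  {A : Matrix (Fin k) (Fin k) ℤ} {c : B → Tor k}
  (h : ∀ b y, F (Θ (b, y)) = Θ (f b, lin A y + c b))

include h

theorem fib_aff {p : B} {m : ℕ} (hp : f^[m] p = p) :
    Aff k (fl Θ) (LW (A ^ m)) F^[m] {x | proj Θ x = p} := by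
  obtain ⟨e, he⟩ := iter_aff h m
  refine ⟨?_, ?_, ?_, ?_⟩
  · rintro i - t y hy
    show ((Θ.symm (fl Θ i t y))).1 = p
    unfold fl
    rw [Θ.symm_apply_apply]
    exact hy
  · rintro i - j - s t y -
    obtain ⟨⟨b, y⟩, rfl⟩ : ∃ z, Θ z = y := ⟨Θ.symm y, Θ.apply_symm_apply y⟩
    rw [fl_apply, fl_apply, fl_apply, fl_apply, add_left_comm]
  · intro y hy
    obtain ⟨⟨b, y⟩, rfl⟩ : ∃ z, Θ z = y := ⟨Θ.symm y, Θ.apply_symm_apply y⟩
    have hb : b = p := by
      have : (Θ.symm (Θ (b, y))).1 = p := hy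
      rwa [Θ.symm_apply_apply] at this
    subst hb
    show (Θ.symm (F^[m] (Θ (b, y)))).1 = b
    rw [he, Θ.symm_apply_apply]
    exact hp
  · intro w y hy
    obtain ⟨⟨b, y⟩, rfl⟩ : ∃ z, Θ z = y := ⟨Θ.symm y, Θ.apply_symm_apply y⟩
    rw [act_apply, he, he, act_apply, ← LW_apply, ← lin_mk, lin_add, add_assoc]

/-- **Hyperbolicity of the linear part and density of the periodic points in periodic fibres.** -/
theorem torus_fib (hr : 1 ≤ r) (hF : OmegaStable n N r F) {p : B} (hp : p ∈ periodicPts f) :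
    HypLin (LW A) ∧ {x | proj Θ x = p} ⊆ closure (Per F) := by
  set m := minimalPeriod f p with hm
  have hm0 : 1 ≤ m := minimalPeriod_pos_of_mem_periodicPts hp
  have hmp : f^[m] p = p := isPeriodicPt_minimalPeriod f p
  have hproj : ∀ x, proj Θ x = p → ∃ y, x = Θ (p, y) := by
    intro x hx
    refine ⟨(Θ.symm x).2, ?_⟩
    have h1 : (p, (Θ.symm x).2) = Θ.symm x := Prod.ext (Eq.symm hx) rfl
    rw [h1]
    exact (Θ.apply_symm_apply x).symm
  have hL : {x | proj Θ x = p} = (fun y => Θ (p, y)) '' univ := by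
    ext x
    constructor
    · intro hx
      obtain ⟨y, rfl⟩ := hproj x hx
      exact ⟨y, mem_univ _, rfl⟩
    · rintro ⟨y, -, rfl⟩
      show (Θ.symm (Θ (p, y))).1 = p
      rw [Θ.symm_apply_apply]
  have hcomp : IsCompact {x | proj Θ x = p} := by
    rw [hL]
    exact isCompact_univ.image (Θ.continuous.comp (Continuous.prodMk_right p))
  have hne : {x | proj Θ x = p}.Nonempty := ⟨Θ (p, 0), by
    show (Θ.symm (Θ (p, 0))).1 = p
    rw [Θ.symm_apply_apply]⟩
  have hdis : ∀ i, 1 ≤ i → i < m → Disjoint (F^[i] '' {x | proj Θ x = p}) {x | proj Θ x = p} := by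
    intro i hi him
    rw [Set.disjoint_left]
    rintro _ ⟨x, hx, rfl⟩ hx'
    obtain ⟨y, rfl⟩ := hproj x hx
    obtain ⟨e, he⟩ := iter_aff h i
    have h1 : (Θ.symm (F^[i] (Θ (p, y)))).1 = p := hx'
    rw [he, Θ.symm_apply_apply] at h1
    exact not_isPeriodicPt_of_pos_of_lt_minimalPeriod (by omega) (hm ▸ him) h1
  have htr : ∀ y ∈ {x | proj Θ x = p}, ∀ z ∈ {x | proj Θ x = p}, ∃ w : W k,
      act (fl Θ) w y = z := by
    intro y hy z hz
    obtain ⟨y, rfl⟩ := hproj y hy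
    obtain ⟨z, rfl⟩ := hproj z hz
    obtain ⟨w, hw⟩ := mk_surj k (z - y)
    refine ⟨fun i => w i, ?_⟩
    rw [act_apply]
    have h1 : WithLp.toLp 2 (fun i => w i) = w := rfl
    rw [h1, hw, sub_add_cancel]
  have hfree : ∀ w : W k, w ≠ 0 → ∀ y ∈ {x | proj Θ x = p}, ∃ t : ℝ,
      act (fl Θ) (t • w) y ≠ y := by
    intro w hw y hy
    obtain ⟨y, rfl⟩ := hproj y hy
    obtain ⟨i, hi⟩ := Function.ne_iff.1 hw
    have hi' : w i ≠ 0 := hi
    refine ⟨(2 * w i)⁻¹, fun hcon => ?_⟩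
    rw [act_apply] at hcon
    have h1 : (p, mk (WithLp.toLp 2 ((2 * w i)⁻¹ • w)) + y) = (p, y) := Θ.injective hcon
    have h2 : mk (WithLp.toLp 2 ((2 * w i)⁻¹ • w)) + y = 0 + y := by
      rw [zero_add]
      exact (Prod.ext_iff.1 h1).2
    have h3 := add_right_cancel h2
    rw [← mk_zero, mk_eq_iff] at h3
    obtain ⟨z, hz⟩ := h3 i
    have h4 : (2 * w i)⁻¹ * w i - 0 = z := hz
    have h5 : (2 * w i)⁻¹ * w i = 1 / 2 := by field_simp
    rw [h5, sub_zero] at h4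
    have h6 : (2 : ℝ) * z = 1 := by rw [← h4]; norm_num
    have h7 : (2 : ℤ) * z = 1 := by exact_mod_cast h6
    omega
  obtain ⟨h1, h2⟩ := torus_main hr hF hm0 (fl_flow Θ) hcomp hne hdis (fib_aff h hmp) htr hfree
  refine ⟨?_, h2⟩
  rw [LW_pow] at h1
  exact root_norm (m := m) (p := (LW A ^ m).charpoly) (LinearMap.aeval_self_charpoly _) h1

end Pool.Agent.H66.ST
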