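import Pool.Agent.H66.ST.Nw
import Pool.Agent.H66.GL.Fin
import Pool.Agent.H66.L.S8.Y504.CO.Gen

/-!
# Stable diffeomorphisms which are limits of gradient-like diffeomorphisms
-/

set_option autoImplicit false
set_option linter.unusedSectionVars false

open scoped Manifold ContDiff Topology
open Set Filter Topology Function

universe u

namespace Pool.Agent.H66.ST

open Pool.Agent.H718R2.G Pool.Agent.H66.GL Pool.Agent.TH80.OMS Pool.Agent.Y504.CO
open Pool.Agent.W5h32.PT (Near)

theorem gradLike_omega' {N : Type u} [TopologicalSpace N] [CompactSpace N]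
    [hmet : TopologicalSpace.MetrizableSpace N] {g : N → N} (hg : Continuous g) (h : GradLike g) :
    Omega g ⊆ periodicPts g := by
  let _ : MetricSpace N := TopologicalSpace.metrizableSpaceMetric N
  exact gradLike_omega hg h

variable {n : ℕ} {N : Type u} [TopologicalSpace N] [T2Space N] [CompactSpace N]
  [ChartedSpace (V n) N] [IsManifold (𝓡 n) ∞ N] {r : ℕ∞}

/-- **Stable limits of gradient-like diffeomorphisms.** -/
theorem stable_near (hr : 1 ≤ r) {F : DiffM n N r} (hF : OmegaStable n N r F)
    (h : Near F fun G => GradLike G) :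
    (Omega F).Finite ∧ ∀ p ∈ Omega F, IsHyperbolicPer n F p := by
  obtain ⟨U, hU, hFU, hc⟩ := id hF
  obtain ⟨G, hGU, hG⟩ := h U hU hFU
  obtain ⟨e, -⟩ := hc G hGU
  have hmet : TopologicalSpace.MetrizableSpace N := exists_metric n N
  have h1 : (Omega G).Finite := hG.1.subset (gradLike_omega' G.continuous hG)
  have h2 : (Omega F).Finite := by
    have : Finite (Omega G) := h1.to_subtype
    have : Finite (Omega F) := Finite.of_equiv _ e.symm.toEquiv
    exact Set.toFinite _
  refine ⟨h2, (Gen.stable hr hF ?_).2⟩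
  refine (h2.subset ?_).countable
  rintro x ⟨hx, -⟩ W hW hxW
  obtain ⟨k, hk, hkW⟩ := hx W (hW.mem_nhds hxW)
  exact ⟨k, hk, x, hxW, hkW⟩

end Pool.Agent.H66.ST
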