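import Pool.Agent.H66.ST.HypA

/-!
# Axiom A for stable affine torus extensions
-/

set_option autoImplicit false
set_option linter.unusedSectionVars false

open scoped Topology ContDiff Manifold
open Set Function
open Filter hiding mk

universe u v

namespace Pool.Agent.H66.ST

open Pool.Agent.H718R2.G Pool.Agent.H66.TM Pool.Agent.TH80.OMS Pool.Agent.H66.GL
open Pool.Agent.R775.HL (HypLin)
open Pool.Agent.W5h63.AX (AxiomA)
open Pool.Agent.R773.TE (ProdDiff proj)
open Pool.Agent.Y504.CO (NoBdd IsHyperbolicPer)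
open Pool.Agent.W5h32.PT (Near)

variable {n d k : ℕ} {N : Type u} [TopologicalSpace N] [T2Space N] [CompactSpace N]
  [ChartedSpace (V n) N] [IsManifold (𝓡 n) ∞ N]
  {B : Type v} [TopologicalSpace B] [T2Space B] [CompactSpace B] [ChartedSpace (V d) B]
  [IsManifold (𝓡 d) ∞ B] {r : ℕ∞}

/-- **Axiom A.** -/
theorem stable_axiomA [Nonempty B] (hr : 1 ≤ r) {Θ : ProdDiff n d k N B (Tor k)} {F : DiffM n N r}
    {f : DiffM d B r} {A : Matrix (Fin k) (Fin k) ℤ} {c : B → Tor k}
    (h : ∀ b y, F (Θ (b, y)) = Θ (f b, lin A y + c b)) (hS : OmegaStable n N r F)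
    (hf : Near f fun g => GradLike g) : AxiomA n F F.symm := by
  obtain ⟨hA, hper, hd, hO⟩ := stable_top hr h hS hf
  have hpF : ∀ y, proj Θ (F y) = f (proj Θ y) := by
    intro y
    obtain ⟨⟨b, t⟩, rfl⟩ : ∃ z, Θ z = y := ⟨Θ.symm y, Θ.apply_symm_apply y⟩
    show (Θ.symm (F (Θ (b, t)))).1 = f (Θ.symm (Θ (b, t))).1
    rw [h, Θ.symm_apply_apply, Θ.symm_apply_apply]
  have hh : ∀ b ∈ Per f, IsHyperbolicPer d f b := by
    refine Pool.Agent.R773.TE.base_hyp hr Θ ?_ ?_ (Pool.Agent.Y504.CO.Gen.stable_hyp hr hS)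
    · intro q
      have h1 := hpF (Θ q)
      have h2 : proj Θ (Θ q) = q.1 := by
        show (Θ.symm (Θ q)).1 = q.1
        rw [Θ.symm_apply_apply]
      rw [h2] at h1
      exact h1
    · intro b m hm hb
      exact exists_per h (det_ne hA hm) hb
  refine ⟨?_, hd⟩
  obtain ⟨m, e, he⟩ := exists_imm n N
  have hNB := noBddT hr h hA hh he
  have hpc : Continuous (proj Θ) := continuous_fst.comp Θ.symm.continuous
  rw [hO]
  refine PA.main n N r hr F m e he.smooth he.inj _ (hper.isClosed.preimage hpc) ?_ ?_ ?_ hNB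
  · rintro x ⟨l, hl, hx⟩
    refine ⟨l, hl, ?_⟩
    show f^[l] (proj Θ (F x)) = proj Θ (F x)
    rw [hpF, ← iterate_succ_apply, iterate_succ_apply', hx]
  · rintro x ⟨l, hl, hx⟩
    refine ⟨l, hl, ?_⟩
    show f^[l] (proj Θ (F.symm x)) = proj Θ (F.symm x)
    apply f.injective
    have h1 : f (proj Θ (F.symm x)) = proj Θ x := by
      rw [← hpF]
      congr 1
      exact F.apply_symm_apply x
    have h2 : f (f^[l] (proj Θ (F.symm x))) = f^[l] (f (proj Θ (F.symm x))) := by
      rw [← iterate_succ_apply, iterate_succ_apply']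
    show f (f^[l] (proj Θ (F.symm x))) = f (proj Θ (F.symm x))
    rw [h2, h1, hx]
  · rw [← hO]
    intro x hx
    refine closure_mono ?_ (hd hx)
    rintro p ⟨l, hl, hp⟩
    exact ⟨per_mem_omega hl hp, l, hl, hp⟩

end Pool.Agent.H66.ST
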