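import Pool.Agent.H66.ST.LinH
import Pool.Agent.H66.ST.Fin
import Pool.Agent.H66.GL.StmA
import Pool.Agent.H66.L.T64922ed1.X183.PC.Main

/-!
# Nonwandering sets of stable affine torus extensions
-/

set_option autoImplicit false
set_option linter.unusedSectionVars false

open scoped Topology ContDiff Manifold
open Set Filter Function

universe u v

namespace Pool.Agent.H66.ST

open Pool.Agent.H718R2.G Pool.Agent.H66.TM Pool.Agent.X183.AT Pool.Agent.TH80.OMS
open Pool.Agent.H66.GL
open Pool.Agent.R773.TE (ProdDiff proj lf lf_apply exists_open liftD_apply)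
open Pool.Agent.R775.HL (HypLin)
open Pool.Agent.W5h32.PT (Near)
open Pool.Agent.Y504.CO (exists_metric ncard_conj)
open Pool.Agent.X183.PC (omegaConj_symm omegaConj_trans)

theorem omega_sub {X : Type u} [TopologicalSpace X] {F G : X → X} (hF : Continuous F)
    (hc : OmegaConj F G) (hG : Omega G ⊆ closure (Per G)) : Omega F ⊆ closure (Per F) := by
  obtain ⟨e, he⟩ := id hc
  intro x hx
  rw [mem_closure_iff]
  intro O hO hxO
  have h1 : IsOpen (e.symm ⁻¹' (Subtype.val ⁻¹' O)) :=
    (hO.preimage continuous_subtype_val).preimage e.symm.continuous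
  obtain ⟨O', hO', h2⟩ := isOpen_induced_iff.1 h1
  have h3 : ((e ⟨x, hx⟩ : Omega G) : X) ∈ O' := by
    have h4 : e ⟨x, hx⟩ ∈ Subtype.val ⁻¹' O' := by
      rw [h2]
      show ((e.symm (e ⟨x, hx⟩) : Omega F) : X) ∈ O
      rw [e.symm_apply_apply]
      exact hxO
    exact h4
  obtain ⟨y, hyO, k, hk, hy⟩ := mem_closure_iff.1 (hG (e ⟨x, hx⟩).2) O' hO' h3
  have hyG : y ∈ Omega G := per_mem_omega hk hy
  refine ⟨(e.symm ⟨y, hyG⟩ : Omega F), ?_, k, hk, ?_⟩
  · have h4 : (⟨y, hyG⟩ : Omega G) ∈ Subtype.val ⁻¹' O' := hyO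
    rw [h2] at h4
    exact h4
  · have hGc := conj_symm hF e he
    -- `F ^ k` fixes the preimage
    have h5 : ∀ (j : ℕ) (a b : Omega G), G^[j] a = b → F^[j] (e.symm a) = e.symm b := by
      intro j
      induction j with
      | zero =>
        intro a b hab
        have : a = b := Subtype.ext hab
        rw [this]
        rfl
      | succ j ih =>
        intro a b hab
        obtain ⟨a', ha'⟩ : ∃ a', a' = e ⟨F^[j] (e.symm a), by
            clear ih hab
            induction j with
            | zero => exact (e.symm a).2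
            | succ j ih' =>
              rw [iterate_succ_apply']
              exact omega_maps hF ih'⟩ := ⟨_, rfl⟩
        have h6 : F^[j] (e.symm a) = e.symm a' := by
          rw [ha', e.symm_apply_apply]
        have h7 : G^[j] a = a' := by
          have h8 := conj_iter hF e he j (e.symm a) (e.symm a') h6
          rwa [e.apply_symm_apply, e.apply_symm_apply] at h8
        rw [iterate_succ_apply', h6]
        apply hGc
        rw [← h7, ← iterate_succ_apply' G]
        exact hab
    exact h5 k _ _ hy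

theorem gradLike_per {X : Type v} [TopologicalSpace X] [CompactSpace X] [Nonempty X] {g : X → X}
    (hg : GradLike g) : (periodicPts g).Nonempty := by
  obtain ⟨b⟩ := ‹Nonempty X›
  have h1 : AsymPO g fun n => g^[n] b := by
    refine Tendsto.mono_right ?_ principal_le_nhdsSet
    rw [tendsto_principal]
    refine Eventually.of_forall fun n => ?_
    show g (g^[n] b) = g^[n + 1] b
    rw [iterate_succ_apply']
  obtain ⟨z, -, hz⟩ := isCompact_univ.exists_mapClusterPt (f := atTop)
    (u := fun n : ℕ => g^[n] b) (by simp)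
  exact ⟨z, hg.2 _ h1 z hz⟩

variable {n d k : ℕ} {N : Type u} [TopologicalSpace N] [T2Space N] [CompactSpace N]
  [ChartedSpace (V n) N] [IsManifold (𝓡 n) ∞ N]
  {B : Type v} [TopologicalSpace B] [T2Space B] [CompactSpace B] [ChartedSpace (V d) B]
  [IsManifold (𝓡 d) ∞ B] {r : ℕ∞}

theorem proj_omega (Θ : ProdDiff n d k N B (Tor k)) {F : N → N} {f : B → B}
    (hF : ∀ x, proj Θ (F x) = f (proj Θ x)) {x : N} (hx : x ∈ Omega F) : proj Θ x ∈ Omega f := by
  have hiter : ∀ (i : ℕ) (x : N), proj Θ (F^[i] x) = f^[i] (proj Θ x) := by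
    intro i
    induction i with
    | zero => exact fun _ => rfl
    | succ i ih =>
      intro x
      rw [iterate_succ_apply', iterate_succ_apply', hF, ih]
  have hpc : Continuous (proj Θ) := continuous_fst.comp Θ.symm.continuous
  intro W hW hxW
  obtain ⟨i, hi, y, hy, hy'⟩ := hx (proj Θ ⁻¹' W) (hW.preimage hpc) hxW
  refine ⟨i, hi, proj Θ y, hy, ?_⟩
  rw [← hiter]
  exact hy'

/-- **Stable affine torus extensions of limits of gradient-like diffeomorphisms.** -/
theorem stable_top [Nonempty B] (hr : 1 ≤ r) {Θ : ProdDiff n d k N B (Tor k)} {F : DiffM n N r}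
    {f : DiffM d B r} {A : Matrix (Fin k) (Fin k) ℤ} {c : B → Tor k}
    (h : ∀ b y, F (Θ (b, y)) = Θ (f b, lin A y + c b)) (hS : OmegaStable n N r F)
    (hf : Near f fun g => GradLike g) :
    HypLin (LW A) ∧ (periodicPts f).Finite ∧ Omega F ⊆ closure (Per F) ∧
      Omega F = {x | proj Θ x ∈ periodicPts f} := by
  obtain ⟨U₀, hU₀, hFU₀, hconj⟩ := id hS
  obtain ⟨U', hU', hfU', hl⟩ := exists_open Θ F f hU₀ hFU₀
  obtain ⟨g, hgU, hg⟩ := hf U' hU' hfU'
  set G := lf Θ F f g with hGd
  have hG : ∀ b y, G (Θ (b, y)) = Θ (g b, lin A y + c b) := by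
    intro b y
    rw [hGd, lf_apply, h, liftD_apply]
    have h1 : (f.symm.trans g) (f b) = g b := by
      show g (f.symm (f b)) = _
      rw [f.symm_apply_apply]
    rw [h1]
  have hFG : OmegaConj F G := hconj G (hl g hgU)
  have hGS : OmegaStable n N r G :=
    ⟨U₀, hU₀, hl g hgU, fun G' hG' =>
      omegaConj_trans (omegaConj_symm F.continuous hFG) (hconj G' hG')⟩
  have hproj : ∀ {F : DiffM n N r} {f : DiffM d B r},
      (∀ b y, F (Θ (b, y)) = Θ (f b, lin A y + c b)) → ∀ x, proj Θ (F x) = f (proj Θ x) := by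
    intro F f h x
    obtain ⟨⟨b, y⟩, rfl⟩ : ∃ z, Θ z = x := ⟨Θ.symm x, Θ.apply_symm_apply x⟩
    show (Θ.symm (F (Θ (b, y)))).1 = f (Θ.symm (Θ (b, y))).1
    rw [h, Θ.symm_apply_apply, Θ.symm_apply_apply]
  obtain ⟨p, hp⟩ := gradLike_per hg
  have hA : HypLin (LW A) := (torus_fib hG hr hGS hp).1
  have hmet : TopologicalSpace.MetrizableSpace B := exists_metric d B
  have hGd' : Omega G ⊆ closure (Per G) := by
    intro x hx
    have h1 : proj Θ x ∈ periodicPts g :=
      gradLike_omega' g.continuous hg (proj_omega Θ (hproj hG) hx)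
    exact (torus_fib hG hr hGS h1).2 rfl
  have hFd := omega_sub F.continuous hFG hGd'
  have hΘ : Bijective Θ := Θ.bijective
  obtain ⟨U₁, -, hFU₁, hfin⟩ := finite_per hr hS
  have hfinf : ∀ m, 1 ≤ m → {b | f^[m] b = b}.Finite := by
    intro m hm
    refine ((hfin F hFU₁ m hm).image (proj Θ)).subset ?_
    intro b hb
    obtain ⟨y, hy⟩ := exists_per h (det_ne hA hm) hb
    refine ⟨Θ (b, y), hy, ?_⟩
    show (Θ.symm (Θ (b, y))).1 = b
    rw [Θ.symm_apply_apply]
  have hfing : ∀ m, 1 ≤ m → {b | g^[m] b = b}.Finite := fun m hm =>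
    hg.1.subset fun b hb => ⟨m, hm, hb⟩
  have hper : (periodicPts f).Finite := by
    refine per_finite (q := (periodicPts g).ncard) hfinf fun m hm => ?_
    have h1 := ncard_conj F.continuous G.continuous hFG hm
    rw [count hΘ h (det_ne hA hm) (hfinf m hm), count hΘ hG (det_ne hA hm) (hfing m hm)] at h1
    rw [Nat.eq_of_mul_eq_mul_right (ker_pos (det_ne hA hm)) h1]
    exact Set.ncard_le_ncard (fun b hb => ⟨m, hm, hb⟩) hg.1
  refine ⟨hA, hper, hFd, Subset.antisymm ?_ ?_⟩
  · have hpc : Continuous (proj Θ) := continuous_fst.comp Θ.symm.continuous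
    refine hFd.trans (closure_minimal ?_ (hper.isClosed.preimage hpc))
    rintro x ⟨m, hm, hx⟩
    refine ⟨m, hm, ?_⟩
    show f^[m] (proj Θ x) = proj Θ x
    have hiter : ∀ (i : ℕ), proj Θ (F^[i] x) = f^[i] (proj Θ x) := by
      intro i
      induction i with
      | zero => rfl
      | succ i ih => rw [iterate_succ_apply', iterate_succ_apply', hproj h, ih]
    rw [← hiter, hx]
  · intro x hx
    have h1 := (torus_fib h hr hS hx).2 (show proj Θ x = proj Θ x from rfl)
    refine closure_minimal ?_ (Pool.Agent.Y504.CO.Cnt.omega_closed F) h1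
    rintro y ⟨m, hm, hy⟩
    exact per_mem_omega hm hy

end Pool.Agent.H66.ST
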