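import Pool.Agent.H66.ST.Tan
import Pool.Agent.H66.ST.Om

/-!
# Hyperbolicity of the preimages of the hyperbolic periodic points
-/

set_option autoImplicit false
set_option linter.unusedSectionVars false
set_option maxSynthPendingDepth 3

open scoped Topology ContDiff Manifold
open Set Function
open Filter hiding mk

noncomputable section

universe u v

namespace Pool.Agent.H66.ST

open Pool.Agent.H718R2.G Pool.Agent.H66.TM Pool.Agent.TH80.OMS
open Pool.Agent.R774.Cl (dr dr_comp dr_eq_fderiv dr_congr one_ne)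
open Pool.Agent.R775.HL (HypLin)
open Pool.Agent.W5h63.AX (Imm tr tr_apply tr_cont cmd_iter dr_iter dr_id)
open Pool.Agent.R773.TE (ProdDiff proj)
open Pool.Agent.Y504.CO (NoBdd IsHyperbolicPer)

variable {n d k : ℕ} {N : Type u} [TopologicalSpace N]
  [ChartedSpace (V n) N] [IsManifold (𝓡 n) ∞ N]
  {B : Type v} [TopologicalSpace B] [ChartedSpace (V d) B]
  [IsManifold (𝓡 d) ∞ B]

/-- the coordinate in the torus -/
def pr2 (Θ : ProdDiff n d k N B (Tor k)) (x : N) : Tor k := (Θ.symm x).2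

theorem pr1_smooth (Θ : ProdDiff n d k N B (Tor k)) : ContMDiff (𝓡 n) (𝓡 d) 1 (proj Θ) :=
  (contMDiff_fst.comp Θ.symm.contMDiff).of_le (by exact_mod_cast le_top)

theorem pr2_smooth (Θ : ProdDiff n d k N B (Tor k)) : ContMDiff (𝓡 n) (𝓡 k) 1 (pr2 Θ) :=
  (contMDiff_snd.comp Θ.symm.contMDiff).of_le (by exact_mod_cast le_top)

/-- vectors with vanishing components vanish -/
theorem vec_zero (Θ : ProdDiff n d k N B (Tor k)) {x : N} {v : V n}
    (h1 : dr (V n) (V d) (proj Θ) x v = 0) (h2 : dr (V n) (V k) (pr2 Θ) x v = 0) : v = 0 := by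
  have e1 : MDifferentiableAt (𝓡 n) (𝓡 d) (proj Θ) x := (pr1_smooth Θ).mdifferentiableAt one_ne
  have e2 : MDifferentiableAt (𝓡 n) (𝓡 k) (pr2 Θ) x := (pr2_smooth Θ).mdifferentiableAt one_ne
  have e3 : mfderiv (𝓡 n) ((𝓡 d).prod (𝓡 k)) Θ.symm x =
      (mfderiv (𝓡 n) (𝓡 d) (proj Θ) x).prod (mfderiv (𝓡 n) (𝓡 k) (pr2 Θ) x) :=
    mfderiv_prodMk e1 e2
  have e4 : mfderiv (𝓡 n) (𝓡 n) (fun y => Θ (Θ.symm y)) x =
      (mfderiv ((𝓡 d).prod (𝓡 k)) (𝓡 n) Θ (Θ.symm x)).comp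
        (mfderiv (𝓡 n) ((𝓡 d).prod (𝓡 k)) Θ.symm x) :=
    mfderiv_comp x (Θ.contMDiff.mdifferentiableAt (by simp))
      (Θ.symm.contMDiff.mdifferentiableAt (by simp))
  have e5 : (fun y => Θ (Θ.symm y)) = id := by
    funext y
    exact Θ.apply_symm_apply y
  rw [e5, mfderiv_id, e3] at e4
  have e6 := congrArg (fun L => L v) e4
  have e7 : ((mfderiv (𝓡 n) (𝓡 d) (proj Θ) x).prod (mfderiv (𝓡 n) (𝓡 k) (pr2 Θ) x)) v = 0 :=
    Prod.ext h1 h2
  have e8 : v = (mfderiv ((𝓡 d).prod (𝓡 k)) (𝓡 n) Θ (Θ.symm x))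
      (((mfderiv (𝓡 n) (𝓡 d) (proj Θ) x).prod (mfderiv (𝓡 n) (𝓡 k) (pr2 Θ) x)) v) := e6
  rw [e7] at e8
  exact e8.trans (ContinuousLinearMap.map_zero (mfderiv ((𝓡 d).prod (𝓡 k)) (𝓡 n) Θ (Θ.symm x)))

/-- a lower bound for an injective linear map -/
theorem lin_lower {a b : ℕ} {L : V a →L[ℝ] V b} (hL : ∀ v, L v = 0 → v = 0) :
    ∃ c : ℝ, 0 < c ∧ ∀ v, c * ‖v‖ ≤ ‖L v‖ := by
  have h1 : LinearMap.ker (L : V a →ₗ[ℝ] V b) = ⊥ := LinearMap.ker_eq_bot'.2 hL
  obtain ⟨K, hK, h2⟩ := (L : V a →ₗ[ℝ] V b).exists_antilipschitzWith h1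
  refine ⟨(K : ℝ)⁻¹, by positivity, fun v => ?_⟩
  have h3 := h2.le_mul_norm (map_zero _) v
  have hK' : (0 : ℝ) < K := by exact_mod_cast hK
  rw [inv_mul_le_iff₀ hK']
  exact h3

/-- bounded orbits of tangent vectors over a periodic orbit -/
theorem base_zero {f : B → B} (hf : ContMDiff (𝓡 d) (𝓡 d) 1 f) (hinj : Injective f) {b : ℤ → B}
    (hb : ∀ i, f (b i) = b (i + 1)) {w : ℤ → V d} (hw : ∀ i, dr (V d) (V d) f (b i) (w i) = w (i + 1))
    {m : ℕ} {e : B → V m} (he : Imm d e) (hC : ∃ C : ℝ, ∀ i, ‖dr (V d) (V m) e (b i) (w i)‖ ≤ C)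
    (hper : ∀ i, b i ∈ Per f) (hh : ∀ i, IsHyperbolicPer d f (b i)) (i : ℤ) : w i = 0 := by
  obtain ⟨C, hC⟩ := hC
  obtain ⟨l, hl, hp⟩ := hper i
  have h1 : ∀ (s : ℕ) (j : ℤ), f^[s] (b j) = b (j + s) := by
    intro s
    induction s with
    | zero => intro j; simp
    | succ s ih =>
      intro j
      rw [iterate_succ_apply', ih, hb]
      congr 1
      push_cast
      ring
  have h2 : ∀ (s : ℕ) (j : ℤ), dr (V d) (V d) f^[s] (b j) (w j) = w (j + s) := by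
    intro s
    induction s with
    | zero =>
      intro j
      show dr (V d) (V d) (fun y => y) (b j) (w j) = w (j + ((0 : ℕ) : ℤ))
      rw [dr_id]
      simp
    | succ s ih =>
      intro j
      rw [dr_iter hf, ih, h1, hw]
      congr 1
      push_cast
      ring
  have hbj : ∀ j : ℤ, b (i + l * j) = b i := by
    intro j
    induction j using Int.induction_on with
    | zero => simp
    | succ j ih =>
      have h3 := h1 l (i + l * j)
      rw [ih, hp] at h3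
      rw [h3]
      congr 1
      ring
    | pred j ih =>
      have h3 := h1 l (i + l * (-(j : ℤ) - 1))
      have h4 : i + l * (-(j : ℤ) - 1) + l = i + l * (-(j : ℤ)) := by ring
      rw [h4, ih] at h3
      exact (hinj.iterate l) (h3.trans hp.symm)
  set T := dr (V d) (V d) f^[l] (b i) with hT
  have hTh : HypLin (T : V d →ₗ[ℝ] V d) := hyp_dr hf (hh i) hl hp
  obtain ⟨c, hc, hcl⟩ := lin_lower (he.inj (b i))
  have h3 := noBdd_of_hyp hTh (fun j => w (i + l * j)) ⟨c⁻¹ * C, fun j => ?_⟩ ?_ 0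
  · simpa using h3
  · have h4 := hcl (w (i + l * j))
    have h5 := hC (i + l * j)
    rw [hbj] at h5
    rw [← div_eq_inv_mul, le_div_iff₀ hc, mul_comm]
    exact h4.trans h5
  · intro j
    show w (i + l * (j + 1)) = T (w (i + l * j))
    have h4 := h2 l (i + l * j)
    rw [hbj] at h4
    rw [h4]
    congr 1
    ring

theorem exists_imm (n : ℕ) (N : Type u) [TopologicalSpace N] [T2Space N] [CompactSpace N]
    [ChartedSpace (V n) N] [IsManifold (𝓡 n) ∞ N] : ∃ (m : ℕ) (e : N → V m), Imm n e := by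
  obtain ⟨m, e, h1, -, h2⟩ := exists_embedding_euclidean_of_compact (M := N) (I := 𝓡 n)
  refine ⟨m, e, h1.of_le (by exact_mod_cast le_top), fun x v hv => ?_⟩
  apply h2 x
  exact hv.trans (ContinuousLinearMap.map_zero (mfderiv (𝓡 n) (𝓡 m) e x)).symm

variable [T2Space N] [CompactSpace N] [T2Space B] [CompactSpace B] {r : ℕ∞}

/-- **No bounded orbits of tangent vectors.** -/
theorem noBddT (hr : 1 ≤ r) {Θ : ProdDiff n d k N B (Tor k)} {F : DiffM n N r}
    {f : DiffM d B r} {A : Matrix (Fin k) (Fin k) ℤ} {c : B → Tor k}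
    (h : ∀ b y, F (Θ (b, y)) = Θ (f b, lin A y + c b)) (hA : HypLin (LW A))
    (hh : ∀ b ∈ Per f, IsHyperbolicPer d f b) {m : ℕ} {e : N → V m} (he : Imm n e) :
    PA.NoBddT n F e {x | proj Θ x ∈ periodicPts f} := by
  rintro x v hx hxF hv ⟨C, hC⟩
  have hFs : ContMDiff (𝓡 n) (𝓡 n) 1 F := F.contMDiff_toFun.of_le (by exact_mod_cast hr)
  have hfs : ContMDiff (𝓡 d) (𝓡 d) 1 f := f.contMDiff_toFun.of_le (by exact_mod_cast hr)
  obtain ⟨mB, eB, heB⟩ := exists_imm d B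
  obtain ⟨mT, eT, heT⟩ := exists_imm k (Tor k)
  have p1 := pr1_smooth Θ
  have p2 := pr2_smooth Θ
  have hpF : ∀ y, proj Θ (F y) = f (proj Θ y) := by
    intro y
    obtain ⟨⟨b, t⟩, rfl⟩ : ∃ z, Θ z = y := ⟨Θ.symm y, Θ.apply_symm_apply y⟩
    show (Θ.symm (F (Θ (b, t)))).1 = f (Θ.symm (Θ (b, t))).1
    rw [h, Θ.symm_apply_apply, Θ.symm_apply_apply]
  have hqF : ∀ y, pr2 Θ (F y) = lin A (pr2 Θ y) + c (proj Θ y) := by
    intro y
    obtain ⟨⟨b, t⟩, rfl⟩ : ∃ z, Θ z = y := ⟨Θ.symm y, Θ.apply_symm_apply y⟩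
    show (Θ.symm (F (Θ (b, t)))).2 = lin A (Θ.symm (Θ (b, t))).2 + c (Θ.symm (Θ (b, t))).1
    rw [h, Θ.symm_apply_apply, Θ.symm_apply_apply]
  have hcs : ContMDiff (𝓡 d) (𝓡 k) 1 c := by
    have e1 : c = fun b => pr2 Θ (F (Θ (b, 0))) := by
      funext b
      rw [h]
      show c b = (Θ.symm (Θ (f b, lin A 0 + c b))).2
      rw [Θ.symm_apply_apply, lin_zero, zero_add]
    rw [e1]
    have e2 : ContMDiff (𝓡 d) ((𝓡 d).prod (𝓡 k)) 1 (fun b : B => (b, (0 : Tor k))) :=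
      contMDiff_id.prodMk contMDiff_const
    have e3 : ContMDiff ((𝓡 d).prod (𝓡 k)) (𝓡 n) 1 Θ :=
      Θ.contMDiff.of_le (by exact_mod_cast le_top)
    exact p2.comp (hFs.comp (e3.comp e2))
  have hdF : ∀ i, dr (V n) (V n) F (x i) (v i) = v (i + 1) := hv
  have hde : ∀ i, ‖dr (V n) (V m) e (x i) (v i)‖ ≤ C := hC
  -- the base
  set b : ℤ → B := fun i => proj Θ (x i) with hb
  set w : ℤ → V d := fun i => dr (V n) (V d) (proj Θ) (x i) (v i) with hw
  have hb1 : ∀ i, f (b i) = b (i + 1) := by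
    intro i
    show f (proj Θ (x i)) = proj Θ (x (i + 1))
    rw [← hpF, hxF]
  have hw1 : ∀ i, dr (V d) (V d) f (b i) (w i) = w (i + 1) := by
    intro i
    have e1 : (fun y => f (proj Θ y)) = fun y => proj Θ (F y) := funext fun y => (hpF y).symm
    have e2 := congrArg (fun g => dr (V n) (V d) g (x i) (v i)) e1
    rw [dr_comp (E₁ := V n) (E₂ := V d) (E₃ := V d) (hfs.mdifferentiableAt one_ne)
      (p1.mdifferentiableAt one_ne), dr_comp (E₁ := V n) (E₂ := V n) (E₃ := V d)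
      (p1.mdifferentiableAt one_ne) (hFs.mdifferentiableAt one_ne)] at e2
    rw [ContinuousLinearMap.comp_apply, ContinuousLinearMap.comp_apply, hdF, hxF] at e2
    exact e2
  have hw0 : ∀ i, w i = 0 := by
    intro i
    obtain ⟨C₁, hC₁, hb₁⟩ := imm_bound he (g := fun y => eB (proj Θ y)) (heB.smooth.comp p1)
    refine base_zero hfs f.injective hb1 hw1 heB ⟨C₁ * C, fun j => ?_⟩ hx (fun j => hh _ (hx j)) i
    have e1 := hb₁ (x j) (v j)
    rw [dr_comp (E₁ := V n) (E₂ := V d) (E₃ := V mB) (heB.smooth.mdifferentiableAt one_ne)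
      (p1.mdifferentiableAt one_ne)] at e1
    exact e1.trans (mul_le_mul_of_nonneg_left (hde j) hC₁)
  -- the fibre
  set z : ℤ → V k := fun i => dr (V n) (V k) (pr2 Θ) (x i) (v i) with hz
  have hz1 : ∀ i, z (i + 1) = linV A (z i) := by
    intro i
    have e1 := dr_affine (A := A) (g := pr2 Θ) (g' := fun y => pr2 Θ (F y))
      (c := fun y => c (proj Θ y)) (x := x i) p2.contMDiffAt (hcs.comp p1).contMDiffAt hqF (v i)
    rw [dr_comp (E₁ := V n) (E₂ := V n) (E₃ := V k) (p2.mdifferentiableAt one_ne)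
      (hFs.mdifferentiableAt one_ne), dr_comp (E₁ := V n) (E₂ := V d) (E₃ := V k)
      (hcs.mdifferentiableAt one_ne) (p1.mdifferentiableAt one_ne)] at e1
    rw [ContinuousLinearMap.comp_apply, ContinuousLinearMap.comp_apply, hdF, hxF] at e1
    have e2 : dr (V n) (V d) (proj Θ) (x i) (v i) = 0 := hw0 i
    rw [e2, map_zero, add_zero] at e1
    exact e1
  have hz0 : ∀ i, z i = 0 := by
    obtain ⟨C₂, hC₂, hb₂⟩ := imm_bound he (g := fun y => eT (pr2 Θ y)) (heT.smooth.comp p2)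
    obtain ⟨c₀, hc₀, hcl⟩ := torus_lower heT
    refine noBdd_of_hyp (hyp_linV hA) z ⟨c₀⁻¹ * (C₂ * C), fun j => ?_⟩ hz1
    have e1 := hb₂ (x j) (v j)
    rw [dr_comp (E₁ := V n) (E₂ := V k) (E₃ := V mT) (heT.smooth.mdifferentiableAt one_ne)
      (p2.mdifferentiableAt one_ne)] at e1
    have e2 := hcl (pr2 Θ (x j)) (z j)
    rw [← div_eq_inv_mul, le_div_iff₀ hc₀, mul_comm]
    exact e2.trans (e1.trans (mul_le_mul_of_nonneg_left (hde j) hC₂))
  intro i
  exact vec_zero Θ (hw0 i) (hz0 i)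

end Pool.Agent.H66.ST
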