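import Mathlib
import Pool.Agent.H66.L.T9f66d723.W5h63.AX.Defs

/-!
# Hyperbolic sets: no bounded orbits of tangent vectors (project PROD of helper74: copy of the
# statements)
-/

set_option autoImplicit false

open scoped Manifold ContDiff

noncomputable section

universe u

namespace Pool.Agent.H66.ST.PA

open Pool.Agent.H718R2.G Pool.Agent.TH80.OMS

/-- there are no nonzero bounded orbits of tangent vectors over `K` -/
def NoBddT (n : ℕ) {m : ℕ} {N : Type u} [TopologicalSpace N] [ChartedSpace (V n) N] (F : N → N)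
    (e : N → V m) (K : Set N) : Prop :=
  ∀ (x : ℤ → N) (v : ℤ → V n), (∀ i, x i ∈ K) → (∀ i, F (x i) = x (i + 1)) →
    (∀ i, Pool.Agent.W5h63.AX.df n F (x i) (v i) = v (i + 1)) →
    (∃ C : ℝ, ∀ i, ‖Pool.Agent.W5h63.AX.dv n e (x i) (v i)‖ ≤ C) → ∀ i, v i = 0

/-- HYP: a closed invariant set with dense periodic points and without nonzero bounded orbits of
tangent vectors is hyperbolic. -/
def S_HYP : Prop :=
  ∀ (n : ℕ) (N : Type u) [TopologicalSpace N] [T2Space N] [CompactSpace N] [ChartedSpace (V n) N]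
    [IsManifold (𝓡 n) ∞ N] (r : ℕ∞), 1 ≤ r → ∀ (F : DiffM n N r) (m : ℕ) (e : N → V m),
    Pool.Agent.W5h63.AX.C1 n e → (∀ x v, Pool.Agent.W5h63.AX.dv n e x v = 0 → v = 0) →
    ∀ K : Set N, IsClosed K → (∀ x ∈ K, F x ∈ K) → (∀ x ∈ K, F.symm x ∈ K) →
    K ⊆ closure {p | p ∈ K ∧ p ∈ Per F} → NoBddT n F e K →
    Pool.Agent.W5h63.AX.IsHyperbolic n F F.symm K

end Pool.Agent.H66.ST.PA
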