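import Pool.Agent.H66.ST.ActN
import Pool.Agent.H66.L.S8.Y38.CO.EIG

/-!
# Hyperbolic integral matrices
-/

set_option autoImplicit false
set_option linter.unusedSectionVars false

open Polynomial Function

namespace Pool.Agent.H66.ST

open Pool.Agent.H66.TM Pool.Agent.X183.AT Pool.Agent.H718R2.G
open Pool.Agent.R775.HL (HypLin hypLin_of_inter root_norm)
open Pool.Agent.Y504.CO (NoBdd EigOne)

/-- powers of hyperbolic maps have no nonzero fixed points -/
theorem no_fix {E : Type*} [AddCommGroup E] [Module ℝ E] [Module.Finite ℝ E] [Module.Free ℝ E]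
    {D : E →ₗ[ℝ] E} (hD : HypLin D) {m : ℕ} (hm : 1 ≤ m) {v : E} (hv : (D ^ m) v = v) :
    v = 0 := by
  set q : ℝ[X] := X ^ m - 1 with hq
  have hqD : aeval D q v = 0 := by
    rw [hq, map_sub, map_pow, aeval_X, map_one, LinearMap.sub_apply, hv, Module.End.one_apply,
      sub_self]
  have hcop : IsCoprime q (LinearMap.charpoly D) := by
    rw [isCoprime_iff_aeval_ne_zero_of_isAlgClosed ℝ ℂ]
    intro ν
    by_cases h : aeval ν q = 0
    · right
      intro h2
      refine hD ν ?_ ?_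
      · rw [IsRoot, eval_map_algebraMap]
        exact h2
      · rw [hq, map_sub, map_pow, aeval_X, map_one, sub_eq_zero] at h
        have h3 : ‖ν‖ ^ m = 1 := by rw [← norm_pow, h, norm_one]
        exact (pow_eq_one_iff_of_nonneg (norm_nonneg ν) (by omega)).1 h3
    · exact Or.inl h
  obtain ⟨a, b, hab⟩ := hcop
  have h1 := congrArg (fun q : ℝ[X] => aeval D q v) hab
  simp only [map_add, map_mul, map_one, LinearMap.aeval_self_charpoly] at h1
  simp [hqD] at h1
  exact h1.symm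

variable {k : ℕ} {A : Matrix (Fin k) (Fin k) ℤ}

theorem det_ne (hA : HypLin (LW A)) {m : ℕ} (hm : 1 ≤ m) : (A ^ m - 1).det ≠ 0 := by
  intro hdet
  obtain ⟨v, hv0, hv⟩ := Matrix.exists_mulVec_eq_zero_iff.2 hdet
  apply hv0
  have h1 : (A ^ m).mulVec v = v := by
    rw [Matrix.sub_mulVec, Matrix.one_mulVec, sub_eq_zero] at hv
    exact hv
  have h2 : (LW A ^ m) (fun i => (v i : ℝ)) = fun i => (v i : ℝ) := by
    rw [← LW_pow]
    unfold LW
    rw [Matrix.toLin'_apply]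
    funext i
    have h3 := congrFun h1 i
    show ∑ j, (((A ^ m) i j : ℤ) : ℝ) * (v j : ℝ) = (v i : ℝ)
    rw [← h3]
    simp [Matrix.mulVec, dotProduct]
  have h3 := no_fix hA hm h2
  funext i
  have h4 : (v i : ℝ) = 0 := congrFun h3 i
  show v i = 0
  exact_mod_cast h4

theorem hyp_linV (hA : HypLin (LW A)) :
    HypLin (linV A : EuclideanSpace ℝ (Fin k) →ₗ[ℝ] EuclideanSpace ℝ (Fin k)) := by
  refine hypLin_of_inter (m := 1) (D := LW A)
    (J := (WithLp.linearEquiv 2 ℝ (Fin k → ℝ) : EuclideanSpace ℝ (Fin k) →ₗ[ℝ] (Fin k → ℝ)))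
    (WithLp.linearEquiv 2 ℝ (Fin k → ℝ)).injective ?_ hA
  ext v i
  rw [pow_one]
  have h1 := LW_apply A (WithLp.ofLp v)
  have h2 := congrArg (fun z : EuclideanSpace ℝ (Fin k) => z i) h1
  exact h2.symm

theorem hyp_LW (hA : HypLin (linV A : EuclideanSpace ℝ (Fin k) →ₗ[ℝ] EuclideanSpace ℝ (Fin k))) :
    HypLin (LW A) := by
  refine hypLin_of_inter (m := 1)
    (D := (linV A : EuclideanSpace ℝ (Fin k) →ₗ[ℝ] EuclideanSpace ℝ (Fin k)))
    (J := ((WithLp.linearEquiv 2 ℝ (Fin k → ℝ)).symm : (Fin k → ℝ) →ₗ[ℝ] EuclideanSpace ℝ (Fin k)))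
    (WithLp.linearEquiv 2 ℝ (Fin k → ℝ)).symm.injective ?_ hA
  rw [pow_one]
  refine LinearMap.ext fun w => ?_
  exact LW_apply A w

/-- hyperbolic maps have no bounded orbits -/
theorem noBdd_of_hyp {n : ℕ} {T : V n →L[ℝ] V n} (hT : HypLin (T : V n →ₗ[ℝ] V n)) :
    NoBdd (fun _ => T) := by
  by_contra hcon
  obtain ⟨θ, u, w, huw, hu, hw⟩ := Pool.Agent.Y38.CO.EIG.part1 T hcon
  have hcs : Real.cos θ ^ 2 + Real.sin θ ^ 2 = 1 := Real.cos_sq_add_sin_sq θ
  have h1 : ∀ a b : V n, T a = Real.cos θ • a - Real.sin θ • b →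
      T b = Real.sin θ • a + Real.cos θ • b →
      T (T a) - (2 * Real.cos θ) • T a + (Real.cos θ ^ 2 + Real.sin θ ^ 2) • a = 0 := by
    intro a b ha hb
    rw [ha, map_sub, map_smul, map_smul, ha, hb]
    module
  have h2 : ∀ a b : V n, T a = Real.cos θ • a - Real.sin θ • b →
      T b = Real.sin θ • a + Real.cos θ • b →
      T (T b) - (2 * Real.cos θ) • T b + (Real.cos θ ^ 2 + Real.sin θ ^ 2) • b = 0 := by
    intro a b ha hb
    rw [hb, map_add, map_smul, map_smul, ha, hb]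
    module
  have hu0 : u = 0 := no_quad (T : V n →ₗ[ℝ] V n) hT hcs (h1 u w hu hw)
  have hw0 : w = 0 := no_quad (T : V n →ₗ[ℝ] V n) hT hcs (h2 u w hu hw)
  rcases huw with h | h
  · exact h hu0
  · exact h hw0

end Pool.Agent.H66.ST
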