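import Pool.Agent.H66.GL.Top
import Pool.Agent.H66.L.S8.TH80.OMS.Defs

/-!
# The nonwandering points of gradient-like maps are periodic
-/

set_option autoImplicit false
set_option linter.unusedSectionVars false

open Set Filter Topology Function

namespace Pool.Agent.H66.ST

open Pool.Agent.H66.GL Pool.Agent.TH80.OMS

/-- the next position in the concatenation of chains of the lengths `m 0, m 1, …` -/
def nx (m : ℕ → ℕ) (q : ℕ × ℕ) : ℕ × ℕ := if q.2 + 1 < m q.1 then (q.1, q.2 + 1) else (q.1 + 1, 0)

/-- the position at the time `k` -/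
def ps (m : ℕ → ℕ) (k : ℕ) : ℕ × ℕ := (nx m)^[k] (0, 0)

theorem ps_succ (m : ℕ → ℕ) (k : ℕ) : ps m (k + 1) = nx m (ps m k) := iterate_succ_apply' _ _ _

theorem ps_lt {m : ℕ → ℕ} (hm : ∀ n, 1 ≤ m n) (k : ℕ) : (ps m k).2 < m (ps m k).1 := by
  induction k with
  | zero => exact hm 0
  | succ k ih =>
    rw [ps_succ]
    unfold nx
    split_ifs with h
    · exact h
    · exact hm _

theorem ps_mono (m : ℕ → ℕ) : Monotone fun k => (ps m k).1 := by
  refine monotone_nat_of_le_succ fun k => ?_
  rw [ps_succ]
  unfold nx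
  split_ifs with h
  · exact le_rfl
  · exact Nat.le_succ _

theorem ps_hit {m : ℕ → ℕ} (n : ℕ) : ∃ k, ps m k = (n, 0) := by
  induction n with
  | zero => exact ⟨0, rfl⟩
  | succ n ih =>
    obtain ⟨k, hk⟩ := ih
    have h1 : ∀ i, i < m n → ps m (k + i) = (n, i) := by
      intro i
      induction i with
      | zero => exact fun _ => hk
      | succ i ih =>
        intro hi
        rw [← add_assoc, ps_succ, ih (by omega)]
        unfold nx
        rw [if_pos hi]
    rcases Nat.eq_zero_or_pos (m n) with h0 | h0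
    · refine ⟨k + 1, ?_⟩
      rw [ps_succ, hk]
      unfold nx
      rw [if_neg (by simp [h0])]
    · refine ⟨k + (m n - 1) + 1, ?_⟩
      rw [ps_succ, h1 _ (by omega)]
      unfold nx
      rw [if_neg (by simp; omega)]

theorem ps_tendsto (m : ℕ → ℕ) : Tendsto (fun k => (ps m k).1) atTop atTop := by
  refine tendsto_atTop_atTop_of_monotone (ps_mono m) fun n => ?_
  obtain ⟨k, hk⟩ := ps_hit (m := m) n
  exact ⟨k, by rw [hk]⟩

variable {X : Type*} [MetricSpace X] [CompactSpace X]

/-- nonwandering points are chain recurrent -/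
theorem exists_chain {g : X → X} (hg : Continuous g) {x : X} (hx : x ∈ Omega g) {ε : ℝ}
    (hε : 0 < ε) : ∃ (m : ℕ) (z : ℕ → X), 1 ≤ m ∧ z 0 = x ∧ z m = x ∧
      ∀ i < m, dist (g (z i)) (z (i + 1)) < ε := by
  obtain ⟨δ, hδ, h1⟩ := Metric.continuousAt_iff.mp (hg.continuousAt (x := x)) (ε / 2) (by positivity)
  obtain ⟨k, hk, y, hy, hky⟩ := hx (Metric.ball x (min δ (ε / 2))) Metric.isOpen_ball
    (Metric.mem_ball_self (lt_min hδ (by positivity)))
  have hy1 : dist (g y) (g x) < ε / 2 := h1 (lt_of_lt_of_le hy (min_le_left _ _))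
  have hy2 : dist (g^[k] y) x < ε / 2 := lt_of_lt_of_le hky (min_le_right _ _)
  refine ⟨k, fun i => if i = 0 then x else if i = k then x else g^[i] y, hk, if_pos rfl, ?_, ?_⟩
  · show (if k = 0 then x else if k = k then x else g^[k] y) = x
    rw [if_neg (by omega), if_pos rfl]
  · intro i hi
    show dist (g (if i = 0 then x else if i = k then x else g^[i] y))
      (if i + 1 = 0 then x else if i + 1 = k then x else g^[i + 1] y) < ε
    rw [if_neg (Nat.succ_ne_zero i)]
    by_cases h0 : i = 0
    · subst h0
      rw [if_pos rfl]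
      by_cases hk1 : 0 + 1 = k
      · rw [if_pos hk1]
        rw [← hk1] at hy2
        have h3 : dist (g x) x ≤ dist (g x) (g y) + dist (g y) x := dist_triangle _ _ _
        rw [dist_comm (g x) (g y)] at h3
        have h4 : dist (g y) x < ε / 2 := hy2
        linarith
      · rw [if_neg hk1]
        show dist (g x) (g y) < ε
        rw [dist_comm]
        linarith
    · rw [if_neg h0, if_neg (by omega)]
      by_cases hk1 : i + 1 = k
      · rw [if_pos hk1, ← iterate_succ_apply' g]
        show dist (g^[i + 1] y) x < ε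
        rw [hk1]
        linarith
      · rw [if_neg hk1, ← iterate_succ_apply' g, dist_self]
        exact hε

/-- **Nonwandering points of gradient-like maps are periodic.** -/
theorem gradLike_omega {g : X → X} (hg : Continuous g) (h : GradLike g) :
    Omega g ⊆ periodicPts g := by
  intro x hx
  choose m z hm h0 hz hd using fun n : ℕ =>
    exists_chain hg hx (show (0 : ℝ) < 1 / ((n : ℝ) + 1) by positivity)
  set y : ℕ → X := fun k => z (ps m k).1 (ps m k).2 with hy
  have hstep : ∀ k, dist (g (y k)) (y (k + 1)) < 1 / (((ps m k).1 : ℝ) + 1) := by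
    intro k
    have h1 := ps_lt hm k
    have h2 := hd (ps m k).1 (ps m k).2 h1
    have h3 : y (k + 1) = z (ps m k).1 ((ps m k).2 + 1) := by
      show z (ps m (k + 1)).1 (ps m (k + 1)).2 = _
      rw [ps_succ]
      unfold nx
      split_ifs with h4
      · rfl
      · have h5 : (ps m k).2 + 1 = m (ps m k).1 := by omega
        rw [h5, hz]
        exact h0 _
    rw [h3]
    exact h2
  refine h.2 y ?_ x ?_
  · rw [asymPO_iff]
    refine squeeze_zero (fun _ => dist_nonneg) (fun k => (hstep k).le) ?_
    exact (tendsto_one_div_add_atTop_nhds_zero_nat (𝕜 := ℝ)).comp (ps_tendsto m)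
  · rw [cluster_iff]
    intro ε hε
    rw [Filter.frequently_atTop]
    intro M
    obtain ⟨k, hk⟩ := ps_hit (m := m) ((ps m M).1 + 1)
    have h1 : M ≤ k := by
      by_contra hcon
      push Not at hcon
      have h2 := ps_mono m hcon.le
      simp only [hk] at h2
      omega
    refine ⟨k, h1, ?_⟩
    show dist (z (ps m k).1 (ps m k).2) x < ε
    rw [hk, h0, dist_self]
    exact hε

end Pool.Agent.H66.ST
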