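import Pool.Agent.H66.ST.LinH
import Pool.Agent.H66.ST.HypP
import Pool.Agent.H66.L.S8.R773.TE.Hyp

/-!
# Tangent vectors of products with tori
-/

set_option autoImplicit false
set_option linter.unusedSectionVars false
set_option maxSynthPendingDepth 3

open scoped Topology ContDiff Manifold
open Set Function
open Filter hiding mk

noncomputable section

universe u v

namespace Pool.Agent.H66.ST

open Pool.Agent.H718R2.G Pool.Agent.H66.TM Pool.Agent.TH80.OMS
open Pool.Agent.R774.Cl (dr dr_comp dr_eq_fderiv dr_congr one_ne)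
open Pool.Agent.R775.HL (HypLin)
open Pool.Agent.W5h63.AX (Imm tr tr_apply tr_cont cmd_iter dr_iter dr_id)
open Pool.Agent.R773.TE (ProdDiff proj)
open Pool.Agent.Y504.CO (NoBdd IsHyperbolicPer)

/-- the derivative of the projection to the torus -/
theorem dr_mk {k : ℕ} (w : V k) : dr (V k) (V k) (mk (k := k)) w = ContinuousLinearMap.id ℝ (V k) := by
  have hm := mem_chart_source (V k) (mk w)
  have hat := chart_mem_atlas (V k) (mk w)
  have h1 : ContinuousAt (fun v => chartAt (V k) (mk w) (mk v)) w :=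
    ((chartAt (V k) (mk w)).continuousAt hm).comp (mk_cont k).continuousAt
  have hev : ∀ᶠ v in 𝓝 w, mk v ∈ (chartAt (V k) (mk w)).source :=
    (mk_cont k).continuousAt.eventually ((chartAt (V k) (mk w)).open_source.mem_nhds hm)
  have h2 : ∀ᶠ v in 𝓝 w, chartAt (V k) (mk w) (mk v) = v + (chartAt (V k) (mk w) (mk w) - w) := by
    refine lift_local (t := fun v => v) h1 continuousAt_id ?_
    filter_upwards [hev] with v hv
    exact (chart_mk hat).1 _ hv
  have h3 : HasMFDerivAt 𝓘(ℝ, V k) 𝓘(ℝ, V k) (mk (k := k)) w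
      (ContinuousLinearMap.id ℝ (V k)) := by
    refine ⟨(mk_cont k).continuousAt, ?_⟩
    have h4 : HasFDerivAt (fun v : V k => v + (chartAt (V k) (mk w) (mk w) - w))
        (ContinuousLinearMap.id ℝ (V k)) w := (hasFDerivAt_id w).add_const _
    have h5 := h4.congr_of_eventuallyEq h2
    exact h5.hasFDerivWithinAt
  exact h3.mfderiv

variable {n : ℕ} {N : Type u} [TopologicalSpace N] [ChartedSpace (V n) N] [IsManifold (𝓡 n) ∞ N]

/-- lifts of maps to the torus -/
theorem exists_lift {k : ℕ} {g : N → Tor k} {x : N} (hg : ContMDiffAt (𝓡 n) (𝓡 k) 1 g x) :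
    ∃ s : N → V k, MDifferentiableAt (𝓡 n) (𝓡 k) s x ∧ (∀ᶠ y in 𝓝 x, g y = mk (s y)) ∧
      dr (V n) (V k) s x = dr (V n) (V k) g x := by
  have hm := mem_chart_source (V k) (g x)
  have hat := chart_mem_atlas (V k) (g x)
  set e := chartAt (V k) (g x) with he
  have h1 : ContMDiffAt (𝓡 k) (𝓡 k) 1 e (g x) :=
    (contMDiffOn_chart (I := 𝓡 k) (n := 1) (g x) hm).contMDiffAt (e.open_source.mem_nhds hm)
  have h2 : ContMDiffAt (𝓡 n) (𝓡 k) 1 (fun y => e (g y)) x := h1.comp x hg
  have h3 : ∀ᶠ y in 𝓝 x, g y = mk (e (g y)) := by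
    filter_upwards [hg.continuousAt.eventually (e.open_source.mem_nhds hm)] with y hy
    exact ((chart_mk hat).1 _ hy).symm
  refine ⟨fun y => e (g y), h2.mdifferentiableAt one_ne, h3, ?_⟩
  have h4 : dr (V n) (V k) g x = dr (V n) (V k) (fun y => mk (e (g y))) x := dr_congr h3
  rw [h4, dr_comp (E₁ := V n) (E₂ := V k) (E₃ := V k) (f := fun y => e (g y))
    ((mk_smooth k).mdifferentiableAt (by simp)) (h2.mdifferentiableAt one_ne), dr_mk]
  rfl

/-- derivatives of affine combinations of maps to the torus -/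
theorem dr_affine {k : ℕ} {A : Matrix (Fin k) (Fin k) ℤ} {g g' c : N → Tor k} {x : N}
    (hg : ContMDiffAt (𝓡 n) (𝓡 k) 1 g x) (hc : ContMDiffAt (𝓡 n) (𝓡 k) 1 c x)
    (h : ∀ y, g' y = lin A (g y) + c y) (v : V n) :
    dr (V n) (V k) g' x v = linV A (dr (V n) (V k) g x v) + dr (V n) (V k) c x v := by
  obtain ⟨s, hs, hs1, hs2⟩ := exists_lift hg
  obtain ⟨t, ht, ht1, ht2⟩ := exists_lift hc
  have h1 : g' =ᶠ[𝓝 x] fun y => mk (linV A (s y) + t y) := by
    filter_upwards [hs1, ht1] with y hy1 hy2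
    rw [h, hy1, hy2, lin_mk, mk_add]
  have h2 : MDifferentiableAt (𝓡 k) (𝓡 k) (linV A) (s x) :=
    (linV A).differentiableAt.mdifferentiableAt
  have h3 : MDifferentiableAt (𝓡 n) (𝓡 k) (fun y => linV A (s y)) x := h2.comp x hs
  have h4 : MDifferentiableAt (𝓡 n) (𝓡 k) (fun y => linV A (s y) + t y) x := h3.add ht
  have h5 : dr (V n) (V k) g' x = dr (V n) (V k) (fun y => linV A (s y) + t y) x := by
    rw [dr_congr h1, dr_comp (E₁ := V n) (E₂ := V k) (E₃ := V k)
      (f := fun y => linV A (s y) + t y) ((mk_smooth k).mdifferentiableAt (by simp)) h4, dr_mk]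
    rfl
  have h6 : dr (V n) (V k) (fun y => linV A (s y) + t y) x =
      dr (V n) (V k) (fun y => linV A (s y)) x + dr (V n) (V k) t x := mfderiv_add h3 ht
  have h7 : dr (V n) (V k) (fun y => linV A (s y)) x = (linV A).comp (dr (V n) (V k) s x) := by
    rw [dr_comp (E₁ := V n) (E₂ := V k) (E₃ := V k) h2 hs, dr_eq_fderiv,
      ContinuousLinearMap.fderiv]
  rw [h5, h6, h7, hs2, ht2]
  rfl

/-- immersions of the torus -/
theorem torus_lower {k m : ℕ} {e : Tor k → V m} (he : Imm k e) :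
    ∃ c : ℝ, 0 < c ∧ ∀ y z, c * ‖z‖ ≤ ‖dr (V k) (V m) e y z‖ := by
  have hc : Continuous fun y => dr (V k) (V m) e y := by
    have hq : Topology.IsQuotientMap (mk (k := k)) := (mk_open k).isQuotientMap (mk_cont k) (mk_surj k)
    rw [hq.continuous_iff]
    have h1 : ((fun y => dr (V k) (V m) e y) ∘ mk) = fun w => fderiv ℝ (fun v => e (mk v)) w := by
      funext w
      show dr (V k) (V m) e (mk w) = _
      rw [← dr_eq_fderiv, dr_comp (E₁ := V k) (E₂ := V k) (E₃ := V m) (f := mk (k := k))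
        (he.smooth.mdifferentiableAt one_ne) ((mk_smooth k).mdifferentiableAt (by simp)), dr_mk]
      rfl
    rw [h1]
    have h2 : ContMDiff (𝓡 k) (𝓡 m) 1 (fun v => e (mk v)) :=
      he.smooth.comp ((mk_smooth k).of_le (by exact_mod_cast le_top))
    exact (contMDiff_iff_contDiff.1 h2).continuous_fderiv one_ne
  have hS : IsCompact ((univ : Set (Tor k)) ×ˢ Metric.sphere (0 : V k) 1) :=
    isCompact_univ.prod (isCompact_sphere _ _)
  have hf : Continuous fun p : Tor k × V k => ‖dr (V k) (V m) e p.1 p.2‖ :=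
    ((hc.comp continuous_fst).clm_apply continuous_snd).norm
  obtain ⟨c, hc0, hcb⟩ := hS.exists_forall_le' hf.continuousOn (a := 0) (by
    rintro ⟨y, z⟩ ⟨-, hz⟩
    have hz1 : ‖z‖ = 1 := by simpa using hz
    refine norm_pos_iff.2 fun h0 => ?_
    rw [he.inj y z h0, norm_zero] at hz1
    exact zero_ne_one hz1)
  refine ⟨c, hc0, fun y z => ?_⟩
  by_cases hz : z = 0
  · rw [hz, norm_zero, mul_zero]
    exact norm_nonneg _
  · have hn : ‖z‖ ≠ 0 := norm_ne_zero_iff.2 hz
    have h1 := hcb (y, ‖z‖⁻¹ • z) ⟨mem_univ _, by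
      rw [mem_sphere_zero_iff_norm, norm_smul, norm_inv, norm_norm, inv_mul_cancel₀ hn]⟩
    have h2 : ‖dr (V k) (V m) e y (‖z‖⁻¹ • z)‖ = ‖z‖⁻¹ * ‖dr (V k) (V m) e y z‖ := by
      rw [map_smul, norm_smul, norm_inv, norm_norm]
    have h3 : c ≤ ‖z‖⁻¹ * ‖dr (V k) (V m) e y z‖ := by
      rw [← h2]
      exact h1
    rw [← div_eq_inv_mul, le_div_iff₀ (by positivity)] at h3
    exact h3

/-- bounds by the immersion -/
theorem imm_bound [CompactSpace N] {m m' : ℕ} {e : N → V m} (he : Imm n e) {g : N → V m'}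
    (hg : ContMDiff (𝓡 n) (𝓡 m') 1 g) :
    ∃ C : ℝ, 0 ≤ C ∧ ∀ x v, ‖dr (V n) (V m') g x v‖ ≤ C * ‖dr (V n) (V m) e x v‖ := by
  obtain ⟨C, hC⟩ := (isCompact_range (tr_cont he hg).norm).bddAbove
  refine ⟨max C 0, le_max_right _ _, fun x v => ?_⟩
  rw [← tr_apply he g x v]
  refine (ContinuousLinearMap.le_opNorm _ _).trans ?_
  exact mul_le_mul_of_nonneg_right ((hC ⟨x, rfl⟩).trans (le_max_left _ _)) (norm_nonneg _)

/-- the derivative of a map in the chart at a fixed point -/
theorem dr_chart {g : N → N} {p : N} (hp : g p = p) (hg : MDifferentiableAt (𝓡 n) (𝓡 n) g p) :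
    HasFDerivAt (fun v => chartAt (V n) p (g ((chartAt (V n) p).symm v))) (dr (V n) (V n) g p)
      (chartAt (V n) p p) := by
  have h1 := hg.hasMFDerivAt
  have h2 := h1.2
  unfold writtenInExtChartAt at h2
  rw [hp] at h2
  have h3 := h2.hasFDerivAt (by simp)
  simp only [extChartAt, Function.comp_def, OpenPartialHomeomorph.extend_coe,
    OpenPartialHomeomorph.extend_coe_symm, modelWithCornersSelf_coe, modelWithCornersSelf_coe_symm,
    id] at h3
  exact h3

/-- hyperbolic periodic points -/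
theorem hyp_dr {g : N → N} (hg : ContMDiff (𝓡 n) (𝓡 n) 1 g) {p : N}
    (h : IsHyperbolicPer n g p) {m : ℕ} (hm : 1 ≤ m) (hp : g^[m] p = p) :
    HypLin (dr (V n) (V n) g^[m] p : V n →ₗ[ℝ] V n) := by
  obtain ⟨D, hD, hD1⟩ := h.2 m hm hp (chartAt (V n) p) (IsManifold.chart_mem_maximalAtlas p)
    (mem_chart_source _ p)
  have h1 := dr_chart hp ((cmd_iter hg m).mdifferentiableAt one_ne)
  rw [h1.unique hD]
  exact hD1

end Pool.Agent.H66.ST
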